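import Pool.Agent.Y262.NU.Stm
import Pool.Agent.Y592.QE.Spec

/-!
# Project NU: the largest eigenvalue of a cluster and one eigenvector
-/

set_option autoImplicit false
set_option maxHeartbeats 400000

open Set Filter Topology

namespace Pool.Agent.Y925.NU

open Pool.Agent.Y262.QE Pool.Agent.Y592.QE

section forms

variable {H : Type} [NormedAddCommGroup H] [InnerProductSpace ℝ H]

theorem low {a b : H →L[ℝ] H →L[ℝ] ℝ} (hF : Fm a b) {e : ℕ → H} {E : ℕ → ℝ} (hE : Eg a b e E)
    {m : ℕ} {v : H} (hv : ∀ i : ℕ, i < m → b v (e i) = 0) : E m * b v v ≤ a v v := by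
  have hlim := (hE.sum v).tendsto_sum_nat
  have hlim2 : Tendsto (fun n => E m * ∑ i ∈ Finset.range n, (b v (e i)) ^ 2) atTop
      (𝓝 (E m * b v v)) := hlim.const_mul _
  apply le_of_tendsto' hlim2
  intro n
  have ho := orth_fin b hE.orth n
  set β : Fin n → ℝ := fun i => b v (e i) with hβ
  set w : H := ∑ i, β i • e i with hw
  have hwv : a w v = ∑ i : Fin n, E i * β i ^ 2 := by
    rw [hw, b_sum_left]
    apply Finset.sum_congr rfl
    intro i _
    rw [hE.eig, hF.sb]
    show β i * (E i * β i) = _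
    ring
  have hww : a w w = ∑ i : Fin n, E i * β i ^ 2 := by
    rw [hw, b_sum_left]
    apply Finset.sum_congr rfl
    intro i _
    rw [hE.eig, b_orth_coef b ho]
    ring
  have h1 := hF.na (v - w)
  have h2 : a (v - w) (v - w) = a v v - a w v - a v w + a w w := by
    simp only [map_sub, ContinuousLinearMap.sub_apply]
    ring
  rw [h2, hF.sa v w, hwv, hww] at h1
  have h3 : E m * ∑ i ∈ Finset.range n, (b v (e i)) ^ 2 ≤ ∑ i : Fin n, E i * β i ^ 2 := by
    rw [Finset.mul_sum, Finset.sum_range]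
    apply Finset.sum_le_sum
    intro i _
    rcases lt_or_ge (i : ℕ) m with h4 | h4
    · have h5 : β i = 0 := hv i h4
      have h6 : b v (e i) = 0 := hv i h4
      rw [h5, h6]
      simp
    · exact mul_le_mul_of_nonneg_right (hE.mono h4) (sq_nonneg _)
  linarith

/-- Parseval for vectors with disjoint supports -/
theorem disj {a b : H →L[ℝ] H →L[ℝ] ℝ} (hF : Fm a b) {e : ℕ → H} {E : ℕ → ℝ}
    (hE : Eg a b e E) {u z : H} (h : ∀ i, b u (e i) * b z (e i) = 0) : b u z = 0 := by
  have h1 := (hE.sum u).add (hE.sum z)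
  have h2 := hE.sum (u + z)
  have h3 : (fun i => (b (u + z) (e i)) ^ 2) = fun i => (b u (e i)) ^ 2 + (b z (e i)) ^ 2 := by
    funext i
    have h4 := h i
    rw [map_add, ContinuousLinearMap.add_apply]
    linear_combination 2 * h4
  rw [h3] at h2
  have h5 := h2.unique h1
  have h6 : b (u + z) (u + z) = b u u + b u z + b z u + b z z := by
    simp only [map_add, ContinuousLinearMap.add_apply]
    ring
  rw [h6, hF.sb z u] at h5
  linarith

end forms

theorem top : Pool.Agent.Y262.NU.StTop := by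
  intro H _ _ a b b' hF hF' e E hE u j η θ huu hau hEj hgap hη hθ hbb hb'b hoff hEE
  have hs1 : 1 ≤ b' u u := by
    have := hbb u
    rwa [huu] at this
  obtain ⟨s, hs⟩ : ∃ s, s = b' u u + θ := ⟨_, rfl⟩
  have hs0 : 1 < s := by linarith
  obtain ⟨κ, hκ⟩ : ∃ κ, κ = 1 + η + η ^ 2 / θ := ⟨_, rfl⟩
  have hκ0 : 0 < κ := by
    rw [hκ]
    positivity
  rw [← hs]
  rw [← hκ] at hEE
  have hspos : 0 < s := by linarith
  rw [← div_le_iff₀ hspos]
  apply le_csInf (nonempty_set hF' j)
  rintro lam ⟨h0, V, hV, hVa⟩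
  by_contra hcon
  push Not at hcon
  rw [lt_div_iff₀ hspos] at hcon
  have hlE : lam < E j := by
    have : lam * 1 ≤ lam * s := mul_le_mul_of_nonneg_left hs0.le h0
    linarith
  -- the coefficients of `u`
  have hc1 : ∀ i, (E i - E j) * b u (e i) = 0 := by
    intro i
    have h1 := hE.eig i u
    have h2 := hau (e i)
    rw [hF.sa, h2, hF.sb (e i) u] at h1
    linarith
  have hc2 : ∀ i, j < i → b u (e i) = 0 := by
    intro i hi
    have h1 : E (j + 1) ≤ E i := hE.mono hi
    rcases mul_eq_zero.1 (hc1 i) with h2 | h2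
    · linarith
    · exact h2
  obtain ⟨i0, hi0, hc0⟩ : ∃ i0, i0 < j + 1 ∧ b u (e i0) ≠ 0 := by
    by_contra hno
    push Not at hno
    have h1 : ∀ i, b u (e i) = 0 := by
      intro i
      rcases Nat.lt_or_ge i (j + 1) with h2 | h2
      · exact hno i h2
      · exact hc2 i h2
    have h2 := hE.sum u
    have h3 : (fun i => (b u (e i)) ^ 2) = fun _ => (0 : ℝ) := by
      funext i
      rw [h1 i]
      ring
    rw [h3, huu] at h2
    have h4 := h2.unique hasSum_zero
    exact one_ne_zero h4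
  obtain ⟨v, hvV, hv0, hvl⟩ := exists_ker hV (N := j) (fun i : Fin j =>
    b u (e i0) • b.flip (e (Fin.succAbove ⟨i0, hi0⟩ i : Fin (j + 1))) -
      b u (e (Fin.succAbove ⟨i0, hi0⟩ i : Fin (j + 1))) • b.flip (e i0)) (Nat.lt_succ_self j)
  obtain ⟨α, hα⟩ : ∃ α, α = b v (e i0) / b u (e i0) := ⟨_, rfl⟩
  have hαi : ∀ i, i < j + 1 → b v (e i) = α * b u (e i) := by
    intro i hi
    by_cases hii : i = i0
    · rw [hii, hα, div_mul_cancel₀ _ hc0]
    · obtain ⟨k, hk⟩ := Fin.exists_succAbove_eq (x := (⟨i, hi⟩ : Fin (j + 1)))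
        (y := (⟨i0, hi0⟩ : Fin (j + 1))) (fun h => hii (Fin.mk.inj_iff.1 h))
      have h1 := hvl k
      rw [hk] at h1
      have h2 : b u (e i0) * b v (e i) - b u (e i) * b v (e i0) = 0 := h1
      rw [hα]
      field_simp
      linarith
  obtain ⟨z, hz⟩ : ∃ z, z = v - α • u := ⟨_, rfl⟩
  have hzi : ∀ i, i < j + 1 → b z (e i) = 0 := by
    intro i hi
    rw [hz, map_sub, map_smul, ContinuousLinearMap.sub_apply, ContinuousLinearMap.smul_apply,
      smul_eq_mul, hαi i hi, sub_self]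
  have huz : b u z = 0 := by
    apply disj hF hE
    intro i
    rcases Nat.lt_or_ge i (j + 1) with h2 | h2
    · rw [hzi i h2, mul_zero]
    · rw [hc2 i h2, zero_mul]
  have hauz : a u z = 0 := by rw [hau, huz, mul_zero]
  have hauu : a u u = E j := by rw [hau, huu, mul_one]
  have hzz := low hF hE hzi
  have hv : v = α • u + z := by
    rw [hz]
    abel
  have hexp : ∀ B : H →L[ℝ] H →L[ℝ] ℝ, (∀ x y, B x y = B y x) →
      B v v = α ^ 2 * B u u + 2 * α * B u z + B z z := by
    intro B hB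
    rw [hv]
    simp only [map_add, map_smul, ContinuousLinearMap.add_apply, ContinuousLinearMap.smul_apply,
      smul_eq_mul]
    rw [hB z u]
    ring
  have hav := hexp a hF.sa
  have hbv := hexp b hF.sb
  have hb'v := hexp b' hF'.sb
  rw [hauz, hauu] at hav
  rw [huz, huu] at hbv
  have hY := hF.nb z
  have hX : 0 ≤ α ^ 2 := sq_nonneg α
  have hmix : 2 * α * b' u z ≤ θ * α ^ 2 + η ^ 2 / θ * b z z := by
    have h1 := hoff z huz
    have h2 : 0 ≤ (θ * α - b' u z) ^ 2 / θ := by positivity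
    have h3 : (θ * α - b' u z) ^ 2 / θ = θ * α ^ 2 - 2 * α * b' u z + (b' u z) ^ 2 / θ := by
      field_simp
      ring
    have h4 : (b' u z) ^ 2 / θ ≤ η ^ 2 / θ * b z z := by
      rw [div_mul_eq_mul_div]
      exact div_le_div_of_nonneg_right h1 hθ.le
    linarith
  have hb'z := hb'b z
  have hup : b' v v ≤ α ^ 2 * s + κ * b z z := by
    rw [hb'v, hs, hκ]
    nlinarith
  have hmain := hVa v hvV
  have h1 : lam * b' v v ≤ lam * (α ^ 2 * s + κ * b z z) := mul_le_mul_of_nonneg_left hup h0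
  have h2 : E j * κ * b z z ≤ E (j + 1) * b z z := mul_le_mul_of_nonneg_right hEE hY
  have h3 : α ^ 2 * (E j - lam * s) + b z z * (κ * (E j - lam)) ≤ 0 := by nlinarith
  have p1 : 0 < E j - lam * s := by linarith
  have p2 : 0 < κ * (E j - lam) := mul_pos hκ0 (by linarith)
  have q1 : 0 ≤ α ^ 2 * (E j - lam * s) := mul_nonneg hX p1.le
  have q2 : 0 ≤ b z z * (κ * (E j - lam)) := mul_nonneg hY p2.le
  have r1 : α ^ 2 * (E j - lam * s) = 0 := by linarith
  have r2 : b z z * (κ * (E j - lam)) = 0 := by linarith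
  have t1 : α ^ 2 = 0 := (mul_eq_zero.1 r1).resolve_right p1.ne'
  have t2 : b z z = 0 := (mul_eq_zero.1 r2).resolve_right p2.ne'
  have hbv0 : b v v = 0 := by
    rw [hbv, t1, t2]
    ring
  have hb'v0 : b' v v ≤ 0 := by
    have := hb'b v
    rw [hbv0, mul_zero] at this
    exact this
  have hav0 : a v v ≤ 0 := by
    refine hmain.trans ?_
    exact mul_nonpos_of_nonneg_of_nonpos h0 hb'v0
  obtain ⟨c, hc, hco⟩ := hF.co
  have h5 := hco v
  rw [hbv0] at h5
  have h6 : 0 < ‖v‖ := norm_pos_iff.mpr hv0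
  have h7 : 0 < c * ‖v‖ ^ 2 := by positivity
  linarith

end Pool.Agent.Y925.NU
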